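import Pool.Agent.H80.G2.Targets

/-!
# Row COM of gmm_modules (helper41): commutators with decreasing projections
-/

set_option autoImplicit false
set_option linter.unusedSectionVars false

open scoped InnerProductSpace
open Finset

namespace Pool.Agent.H41.G2

open Pool.Agent.H80.G2

theorem norm_comb {E ι : Type*} [NormedAddCommGroup E] [InnerProductSpace ℂ E] [DecidableEq ι]
    (s : Finset ι) (v : ι → E) (hv : ∀ a ∈ s, ∀ b ∈ s, a ≠ b → ⟪v a, v b⟫_ℂ = 0) (c : ι → ℝ) :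
    ‖∑ a ∈ s, (c a : ℂ) • v a‖ ^ 2 = ∑ a ∈ s, c a ^ 2 * ‖v a‖ ^ 2 := by
  induction s using Finset.induction_on with
  | empty => simp
  | insert a s ha ih =>
    have h1 : ∀ a ∈ s, ∀ b ∈ s, a ≠ b → ⟪v a, v b⟫_ℂ = 0 := fun a ha b hb hab =>
      hv a (mem_insert_of_mem ha) b (mem_insert_of_mem hb) hab
    rw [sum_insert ha, sum_insert ha, ← ih h1]
    have h2 : ⟪(c a : ℂ) • v a, ∑ b ∈ s, (c b : ℂ) • v b⟫_ℂ = 0 := by
      rw [inner_smul_left, inner_sum, sum_eq_zero, mul_zero]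
      intro b hb
      rw [inner_smul_right, hv a (mem_insert_self _ _) b (mem_insert_of_mem hb)
        (fun h => ha (h ▸ hb)), mul_zero]
    have h3 := norm_add_sq_eq_norm_sq_add_norm_sq_of_inner_eq_zero _ _ h2
    have h4 : ‖(c a : ℂ) • v a‖ ^ 2 = c a ^ 2 * ‖v a‖ ^ 2 := by
      rw [norm_smul, mul_pow, Complex.norm_real, Real.norm_eq_abs, sq_abs]
    nlinarith [h3, h4]

variable {H : Type} [NormedAddCommGroup H] [InnerProductSpace ℂ H] [CompleteSpace H]

/-- the projections with `1` in front and `0` behind -/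
noncomputable def ff (K : ℕ) (e : ℕ → (H →L[ℂ] H)) (i : ℕ) : H →L[ℂ] H :=
  if i = 0 then 1 else if i ≤ K then e (i - 1) else 0

theorem ff_zero (K : ℕ) (e : ℕ → (H →L[ℂ] H)) : ff K e 0 = 1 := by simp [ff]

theorem ff_succ (K : ℕ) (e : ℕ → (H →L[ℂ] H)) {k : ℕ} (hk : k < K) : ff K e (k + 1) = e k := by
  have : k + 1 ≤ K := hk
  simp [ff, this]

theorem ff_big (K : ℕ) (e : ℕ → (H →L[ℂ] H)) {k : ℕ} (hk : K < k) : ff K e k = 0 := by
  have h1 : k ≠ 0 := by omega
  have h2 : ¬ k ≤ K := by omega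
  simp [ff, h1, h2]

variable {M : VonNeumannAlgebra H} {K : ℕ} {e : ℕ → (H →L[ℂ] H)}

theorem ff_mem (he : ∀ k, Prj M (e k)) (i : ℕ) : ff K e i ∈ M := by
  unfold ff
  split_ifs
  · exact one_mem M
  · exact (he _).1
  · exact zero_mem M

theorem ff_star (he : ∀ k, Prj M (e k)) (i : ℕ) : star (ff K e i) = ff K e i := by
  unfold ff
  split_ifs
  · exact star_one _
  · exact (he _).2.1
  · exact star_zero _

theorem ff_mul_self (he : ∀ k, Prj M (e k)) (i : ℕ) : ff K e i * ff K e i = ff K e i := by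
  unfold ff
  split_ifs
  · exact one_mul _
  · exact (he _).2.2
  · exact mul_zero _

theorem ff_mul_succ (hd : ∀ k, e k * e (k + 1) = e (k + 1)) (i : ℕ) :
    ff K e i * ff K e (i + 1) = ff K e (i + 1) := by
  rcases Nat.eq_zero_or_pos i with rfl | hi
  · rw [ff_zero, one_mul]
  · rcases lt_or_ge K (i + 1) with h | h
    · rw [ff_big K e h, mul_zero]
    · obtain ⟨k, rfl⟩ : ∃ k, i = k + 1 := ⟨i - 1, by omega⟩
      rw [ff_succ K e (by omega), ff_succ K e (by omega)]
      exact hd k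

theorem ff_mul (he : ∀ k, Prj M (e k)) (hd : ∀ k, e k * e (k + 1) = e (k + 1)) {i j : ℕ}
    (hij : i ≤ j) : ff K e i * ff K e j = ff K e j := by
  induction j, hij using Nat.le_induction with
  | base => exact ff_mul_self he i
  | succ j hj ih => rw [← ff_mul_succ hd j, ← mul_assoc, ih]

theorem ff_mul' (he : ∀ k, Prj M (e k)) (hd : ∀ k, e k * e (k + 1) = e (k + 1)) {i j : ℕ}
    (hij : i ≤ j) : ff K e j * ff K e i = ff K e j := by
  have := congrArg star (ff_mul (K := K) he hd hij)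
  rwa [star_mul, ff_star he, ff_star he] at this

/-- the spectral projections -/
noncomputable def pp (K : ℕ) (e : ℕ → (H →L[ℂ] H)) (i : ℕ) : H →L[ℂ] H :=
  ff K e i - ff K e (i + 1)

theorem pp_mem (he : ∀ k, Prj M (e k)) (i : ℕ) : pp K e i ∈ M :=
  sub_mem (ff_mem he i) (ff_mem he (i + 1))

theorem pp_star (he : ∀ k, Prj M (e k)) (i : ℕ) : star (pp K e i) = pp K e i := by
  rw [pp, star_sub, ff_star he, ff_star he]

theorem pp_mul_lt (he : ∀ k, Prj M (e k)) (hd : ∀ k, e k * e (k + 1) = e (k + 1)) {i j : ℕ}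
    (hij : i < j) : pp K e i * pp K e j = 0 := by
  rw [pp, pp, sub_mul, mul_sub, mul_sub, ff_mul he hd (by omega), ff_mul he hd (by omega),
    ff_mul he hd (by omega), ff_mul he hd (by omega), sub_self]

theorem pp_mul (he : ∀ k, Prj M (e k)) (hd : ∀ k, e k * e (k + 1) = e (k + 1)) {i j : ℕ}
    (hij : i ≠ j) : pp K e i * pp K e j = 0 := by
  rcases lt_or_gt_of_ne hij with h | h
  · exact pp_mul_lt he hd h
  · have := congrArg star (pp_mul_lt (K := K) he hd h)
    rwa [star_mul, pp_star he, pp_star he, star_zero] at this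

theorem sum_pp (K : ℕ) (e : ℕ → (H →L[ℂ] H)) : ∑ i ∈ range (K + 1), pp K e i = 1 := by
  unfold pp
  rw [sum_range_sub', ff_zero, ff_big K e (Nat.lt_succ_self K), sub_zero]

theorem e_eq_sum (K : ℕ) (e : ℕ → (H →L[ℂ] H)) {k : ℕ} (hk : k < K) :
    e k = ∑ i ∈ range (K + 1), (if k < i then (1 : ℂ) else 0) • pp K e i := by
  have h1 : ∀ m, ∑ i ∈ range (k + 1 + m), (if k < i then (1 : ℂ) else 0) • pp K e i =
      ff K e (k + 1) - ff K e (k + 1 + m) := by
    intro m
    induction m with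
    | zero =>
      rw [Nat.add_zero, sub_self]
      refine sum_eq_zero fun i hi => ?_
      rw [mem_range] at hi
      rw [if_neg (by omega), zero_smul]
    | succ m ih =>
      rw [← Nat.add_assoc, sum_range_succ, ih, if_pos (by omega), one_smul, pp]
      abel
  obtain ⟨m, hm⟩ : ∃ m, K + 1 = k + 1 + m := ⟨K - k, by omega⟩
  rw [hm, h1, ← hm, ff_big K e (Nat.lt_succ_self K), sub_zero, ff_succ K e hk]

theorem left_sum (K : ℕ) (e : ℕ → (H →L[ℂ] H)) (x : H →L[ℂ] H) (a b : ℕ → ℂ) :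
    (∑ i ∈ range (K + 1), a i • pp K e i) * x - x * (∑ i ∈ range (K + 1), b i • pp K e i) =
      ∑ q ∈ range (K + 1) ×ˢ range (K + 1), (a q.1 - b q.2) • (pp K e q.1 * x * pp K e q.2) := by
  have h1 : (∑ i ∈ range (K + 1), a i • pp K e i) * x =
      ∑ q ∈ range (K + 1) ×ˢ range (K + 1), a q.1 • (pp K e q.1 * x * pp K e q.2) := by
    rw [sum_product, sum_mul]
    refine sum_congr rfl fun i _ => ?_
    dsimp only
    rw [← smul_sum, ← mul_sum, sum_pp, mul_one, smul_mul_assoc]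
  have h2 : x * (∑ i ∈ range (K + 1), b i • pp K e i) =
      ∑ q ∈ range (K + 1) ×ˢ range (K + 1), b q.2 • (pp K e q.1 * x * pp K e q.2) := by
    rw [sum_product_right, mul_sum]
    refine sum_congr rfl fun i _ => ?_
    dsimp only
    rw [← smul_sum, ← sum_mul, ← sum_mul, sum_pp, one_mul, mul_smul_comm]
  rw [h1, h2, ← sum_sub_distrib]
  refine sum_congr rfl fun q _ => ?_
  rw [sub_smul]

theorem n2_left_sum {ξ : ℕ → H} (h : IsTr M ξ) (he : ∀ k, Prj M (e k))
    (hd : ∀ k, e k * e (k + 1) = e (k + 1)) {x : H →L[ℂ] H} (hx : x ∈ M) (a b : ℕ → ℝ) :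
    n2 ξ ((∑ i ∈ range (K + 1), (a i : ℂ) • pp K e i) * x -
      x * (∑ i ∈ range (K + 1), (b i : ℂ) • pp K e i)) ^ 2 =
      ∑ q ∈ range (K + 1) ×ˢ range (K + 1), (a q.1 - b q.2) ^ 2 *
        n2 ξ (pp K e q.1 * x * pp K e q.2) ^ 2 := by
  classical
  rw [left_sum, ← norm_emb h.sum, map_sum]
  have h1 : ∀ q ∈ range (K + 1) ×ˢ range (K + 1),
      emb h.sum (((a q.1 : ℂ) - (b q.2 : ℂ)) • (pp K e q.1 * x * pp K e q.2)) =
        ((a q.1 - b q.2 : ℝ) : ℂ) • emb h.sum (pp K e q.1 * x * pp K e q.2) := by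
    intro q _
    rw [map_smul]
    push_cast
    rfl
  rw [sum_congr rfl h1, norm_comb (range (K + 1) ×ˢ range (K + 1))
    (fun q => emb h.sum (pp K e q.1 * x * pp K e q.2)) ?_ (fun q => a q.1 - b q.2)]
  · simp only [norm_emb]
  · intro q _ r _ hqr
    rw [inner_emb, star_mul, star_mul, pp_star he, pp_star he]
    by_cases h2 : q.1 = r.1
    · have h3 : q.2 ≠ r.2 := fun h3 => hqr (Prod.ext h2 h3)
      have h4 : pp K e q.2 * (star x * pp K e q.1) * (pp K e r.1 * x * pp K e r.2) =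
          (pp K e q.2 * (star x * pp K e q.1) * (pp K e r.1 * x)) * pp K e r.2 := by
        simp only [mul_assoc]
      rw [h4, h.comm _ (mul_mem (mul_mem (pp_mem he _) (mul_mem (star_mem hx) (pp_mem he _)))
        (mul_mem (pp_mem he _) hx)) _ (pp_mem he _)]
      have h5 : pp K e r.2 * (pp K e q.2 * (star x * pp K e q.1) * (pp K e r.1 * x)) =
          (pp K e r.2 * pp K e q.2) * ((star x * pp K e q.1) * (pp K e r.1 * x)) := by
        simp only [mul_assoc]
      rw [h5, pp_mul he hd (Ne.symm h3), zero_mul, tr_zero]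
    · have h4 : pp K e q.2 * (star x * pp K e q.1) * (pp K e r.1 * x * pp K e r.2) =
          pp K e q.2 * star x * (pp K e q.1 * pp K e r.1) * (x * pp K e r.2) := by
        simp only [mul_assoc]
      rw [h4, pp_mul he hd h2, mul_zero, zero_mul, tr_zero]

theorem sum_ind' (K : ℕ) {i : ℕ} (hi : i ≤ K) :
    ∑ k ∈ range K, (if k < i then (1 : ℝ) else 0) = i := by
  rw [sum_boole]
  have : (range K).filter (fun k => k < i) = range i := by
    ext k
    simp only [mem_filter, mem_range]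
    omega
  rw [this, card_range]

theorem sum_ind_le (K : ℕ) {i j : ℕ} (hi : i ≤ K) (hj : j ≤ K) (hij : i ≤ j) :
    ∑ k ∈ range K, ((if k < i then (1 : ℝ) else 0) - (if k < j then (1 : ℝ) else 0)) ^ 2 =
      |(i : ℝ) - j| := by
  have h1 : ∀ k ∈ range K, ((if k < i then (1 : ℝ) else 0) -
      (if k < j then (1 : ℝ) else 0)) ^ 2 =
      (if k < j then (1 : ℝ) else 0) - (if k < i then (1 : ℝ) else 0) := by
    intro k _
    by_cases h2 : k < i
    · rw [if_pos h2, if_pos (lt_of_lt_of_le h2 hij)]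
      norm_num
    · by_cases h3 : k < j
      · rw [if_neg h2, if_pos h3]
        norm_num
      · rw [if_neg h2, if_neg h3]
        norm_num
  rw [sum_congr rfl h1, sum_sub_distrib, sum_ind' K hi, sum_ind' K hj, abs_sub_comm,
    abs_of_nonneg]
  have : (i : ℝ) ≤ j := by exact_mod_cast hij
  linarith

theorem sum_ind (K : ℕ) {i j : ℕ} (hi : i ≤ K) (hj : j ≤ K) :
    ∑ k ∈ range K, ((if k < i then (1 : ℝ) else 0) - (if k < j then (1 : ℝ) else 0)) ^ 2 =
      |(i : ℝ) - j| := by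
  rcases le_total i j with h | h
  · exact sum_ind_le K hi hj h
  · rw [abs_sub_comm, ← sum_ind_le K hj hi h]
    exact sum_congr rfl fun k _ => by ring

/-- Row COM. -/
theorem pf_COM : T_COM := by
  intro H _ _ _ M ξ h K e he hd x hx
  classical
  set s := range (K + 1) ×ˢ range (K + 1) with hs
  set m : ℕ × ℕ → ℝ := fun q => n2 ξ (pp K e q.1 * x * pp K e q.2) ^ 2 with hm
  have hm0 : ∀ q, 0 ≤ m q := fun q => sq_nonneg _
  have A1 : ∀ k ∈ range K, n2 ξ (e k * x - x * e k) ^ 2 =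
      ∑ q ∈ s, ((if k < q.1 then (1 : ℝ) else 0) - (if k < q.2 then (1 : ℝ) else 0)) ^ 2 * m q := by
    intro k hk
    have h1 := n2_left_sum (K := K) h he hd hx (fun i => if k < i then (1 : ℝ) else 0)
      (fun i => if k < i then (1 : ℝ) else 0)
    have h2 : ∑ i ∈ range (K + 1), (((if k < i then (1 : ℝ) else 0 : ℝ)) : ℂ) • pp K e i = e k := by
      rw [e_eq_sum K e (mem_range.1 hk)]
      refine sum_congr rfl fun i _ => ?_
      split_ifs <;> simp
    rw [h2] at h1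
    exact h1
  have A2 : ∑ k ∈ range K, n2 ξ (e k * x - x * e k) ^ 2 =
      ∑ q ∈ s, |(q.1 : ℝ) - q.2| * m q := by
    rw [sum_congr rfl A1, sum_comm]
    refine sum_congr rfl fun q hq => ?_
    rw [← sum_mul]
    rw [hs, mem_product, mem_range, mem_range] at hq
    rw [sum_ind K (by omega) (by omega)]
  have A3 : n2 ξ ((∑ k ∈ range K, e k) * x - x * ∑ k ∈ range K, e k) ^ 2 =
      ∑ q ∈ s, ((q.1 : ℝ) - q.2) ^ 2 * m q := by
    have h1 := n2_left_sum (K := K) h he hd hx (fun i => (i : ℝ)) (fun i => (i : ℝ))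
    have h2 : ∑ i ∈ range (K + 1), ((i : ℝ) : ℂ) • pp K e i = ∑ k ∈ range K, e k := by
      rw [sum_congr rfl (fun k hk => e_eq_sum K e (mem_range.1 hk)), sum_comm]
      refine sum_congr rfl fun i hi => ?_
      rw [← sum_smul]
      congr 1
      have h3 := sum_ind' K (i := i) (by have := mem_range.1 hi; omega)
      rw [← h3]
      push_cast
      refine sum_congr rfl fun k _ => ?_
      split_ifs <;> simp
    rw [h2] at h1
    exact h1
  have A4 : n2 ξ x ^ 2 = ∑ q ∈ s, m q := by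
    have h1 := n2_left_sum (K := K) h he hd hx (fun _ => (1 : ℝ)) (fun _ => (0 : ℝ))
    have h2 : ∑ i ∈ range (K + 1), ((1 : ℝ) : ℂ) • pp K e i = 1 := by
      simp only [Complex.ofReal_one, one_smul]
      exact sum_pp K e
    have h3 : ∑ i ∈ range (K + 1), ((0 : ℝ) : ℂ) • pp K e i = 0 := by
      simp
    rw [h2, h3, one_mul, mul_zero, sub_zero] at h1
    rw [h1]
    refine sum_congr rfl fun q _ => ?_
    simp [hm]
  rw [A2]
  have B1 : (∑ q ∈ s, |(q.1 : ℝ) - q.2| * m q) ^ 2 ≤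
      (∑ q ∈ s, ((q.1 : ℝ) - q.2) ^ 2 * m q) * ∑ q ∈ s, m q := by
    have h1 := sum_mul_sq_le_sq_mul_sq s (fun q => |(q.1 : ℝ) - q.2| * Real.sqrt (m q))
      (fun q => Real.sqrt (m q))
    have h2 : ∀ q ∈ s, |(q.1 : ℝ) - q.2| * Real.sqrt (m q) * Real.sqrt (m q) =
        |(q.1 : ℝ) - q.2| * m q := fun q _ => by
      rw [mul_assoc, Real.mul_self_sqrt (hm0 q)]
    have h3 : ∀ q ∈ s, (|(q.1 : ℝ) - q.2| * Real.sqrt (m q)) ^ 2 =
        ((q.1 : ℝ) - q.2) ^ 2 * m q := fun q _ => by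
      rw [mul_pow, sq_abs, Real.sq_sqrt (hm0 q)]
    have h4 : ∀ q ∈ s, Real.sqrt (m q) ^ 2 = m q := fun q _ => Real.sq_sqrt (hm0 q)
    rw [sum_congr rfl h2, sum_congr rfl h3, sum_congr rfl h4] at h1
    exact h1
  rw [← A3, ← A4, ← mul_pow] at B1
  exact le_of_sq_le_sq B1 (mul_nonneg (n2_nonneg _ _) (n2_nonneg _ _))

end Pool.Agent.H41.G2
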